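import Pool.Agent.Helper80.HD.GoalsB

/-! # Project HD (MP_6af536_nt), packet ARC: a good archimedean absolute value of `K(u)` -/

set_option autoImplicit false

open MvPolynomial Filter Topology

noncomputable section

namespace Pool.Agent.Helper75.HD

open Pool.Agent.Helper80.HD

section blocks

variable {K : Type} [Field K] {k N : ℕ}

def b0 (m : Fin (k + 1) × Fin (N + 1) →₀ ℕ) : Fin (N + 1) →₀ ℕ :=
  Finsupp.equivFunOnFinite.symm fun j => m (0, j)

def br (m : Fin (k + 1) × Fin (N + 1) →₀ ℕ) : Fin k × Fin (N + 1) →₀ ℕ :=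
  Finsupp.equivFunOnFinite.symm fun q => m (q.1.succ, q.2)

def join (α : Fin (N + 1) →₀ ℕ) (β : Fin k × Fin (N + 1) →₀ ℕ) :
    Fin (k + 1) × Fin (N + 1) →₀ ℕ :=
  Finsupp.equivFunOnFinite.symm fun q =>
    Fin.cases (motive := fun _ => ℕ) (α q.2) (fun i => β (i, q.2)) q.1

@[simp] theorem b0_apply (m : Fin (k + 1) × Fin (N + 1) →₀ ℕ) (j : Fin (N + 1)) :
    b0 m j = m (0, j) := rfl

@[simp] theorem br_apply (m : Fin (k + 1) × Fin (N + 1) →₀ ℕ) (q : Fin k × Fin (N + 1)) :
    br m q = m (q.1.succ, q.2) := rfl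

theorem join_zero (α : Fin (N + 1) →₀ ℕ) (β : Fin k × Fin (N + 1) →₀ ℕ) (j : Fin (N + 1)) :
    join α β (0, j) = α j := rfl

theorem join_succ (α : Fin (N + 1) →₀ ℕ) (β : Fin k × Fin (N + 1) →₀ ℕ) (i : Fin k)
    (j : Fin (N + 1)) : join α β (i.succ, j) = β (i, j) := rfl

theorem eq_join {m : Fin (k + 1) × Fin (N + 1) →₀ ℕ} {α : Fin (N + 1) →₀ ℕ}
    {β : Fin k × Fin (N + 1) →₀ ℕ} : (b0 m = α ∧ br m = β) ↔ m = join α β := by
  constructor
  · rintro ⟨rfl, rfl⟩
    ext ⟨i, j⟩
    refine Fin.cases ?_ (fun i => ?_) i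
    · rfl
    · rfl
  · rintro rfl
    constructor
    · ext j; rfl
    · ext q; rfl

theorem sub_monomial (m : Fin (k + 1) × Fin (N + 1) →₀ ℕ) (a : K) :
    sub K (X : Fin k × Fin (N + 1) → MvPolynomial (Fin k × Fin (N + 1)) K) (monomial m a) =
      monomial (b0 m) (monomial (br m) a) := by
  unfold sub
  rw [aeval_monomial, Finsupp.prod_fintype _ _ (fun _ => by simp), Fintype.prod_prod_type,
    Fin.prod_univ_succ, monomial_eq (s := b0 m), monomial_eq (s := br m),
    Finsupp.prod_fintype _ _ (fun _ => by simp), Finsupp.prod_fintype _ _ (fun _ => by simp),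
    Fintype.prod_prod_type]
  simp only [Fin.cases_zero, Fin.cases_succ, b0_apply, br_apply, map_mul, map_prod, map_pow]
  have h1 : (algebraMap K (MvPolynomial (Fin (N + 1)) (MvPolynomial (Fin k × Fin (N + 1)) K))) a =
      C (C a) := rfl
  rw [h1]
  ring

theorem coeff_sub (P : MvPolynomial (Fin (k + 1) × Fin (N + 1)) K) (α : Fin (N + 1) →₀ ℕ)
    (β : Fin k × Fin (N + 1) →₀ ℕ) :
    coeff β (coeff α (sub K (X : Fin k × Fin (N + 1) → MvPolynomial (Fin k × Fin (N + 1)) K) P)) =
      coeff (join α β) P := by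
  classical
  induction P using MvPolynomial.induction_on' with
  | monomial m a =>
    rw [sub_monomial, coeff_monomial, coeff_monomial]
    by_cases h : b0 m = α
    · rw [if_pos h, coeff_monomial]
      by_cases h' : br m = β
      · rw [if_pos h', if_pos (eq_join.1 ⟨h, h'⟩)]
      · rw [if_neg h', if_neg fun h2 => h' (eq_join.2 h2).2]
    · rw [if_neg h, coeff_zero, if_neg fun h2 => h (eq_join.2 h2).1]
  | add p q hp hq => rw [map_add, coeff_add, coeff_add, coeff_add, hp, hq]

theorem sub_eq {R : Type} [CommRing R] [Algebra K R] (x : Fin k × Fin (N + 1) → R)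
    (P : MvPolynomial (Fin (k + 1) × Fin (N + 1)) K) :
    sub K x P = map (aeval x : MvPolynomial (Fin k × Fin (N + 1)) K →ₐ[K] R).toRingHom
      (sub K (X : Fin k × Fin (N + 1) → MvPolynomial (Fin k × Fin (N + 1)) K) P) := by
  have h : sub K x = (mapAlgHom (aeval x)).comp
      (sub K (X : Fin k × Fin (N + 1) → MvPolynomial (Fin k × Fin (N + 1)) K)) := by
    apply MvPolynomial.algHom_ext
    rintro ⟨i, j⟩
    unfold sub
    rw [AlgHom.comp_apply, aeval_X, aeval_X]
    refine Fin.cases ?_ (fun i => ?_) i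
    · simp
    · simp
  rw [h]
  rfl

/-- the coefficient polynomials -/
def cp (P : MvPolynomial (Fin (k + 1) × Fin (N + 1)) K) (α : Fin (N + 1) →₀ ℕ) :
    MvPolynomial (Fin k × Fin (N + 1)) K :=
  coeff α (sub K (X : Fin k × Fin (N + 1) → MvPolynomial (Fin k × Fin (N + 1)) K) P)

theorem coeff_cp (P : MvPolynomial (Fin (k + 1) × Fin (N + 1)) K) (α : Fin (N + 1) →₀ ℕ)
    (β : Fin k × Fin (N + 1) →₀ ℕ) : coeff β (cp P α) = coeff (join α β) P := coeff_sub P α β

theorem coeff_sub_u {R : Type} [CommRing R] [Algebra K R] (x : Fin k × Fin (N + 1) → R)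
    (P : MvPolynomial (Fin (k + 1) × Fin (N + 1)) K) (α : Fin (N + 1) →₀ ℕ) :
    coeff α (sub K x P) = aeval x (cp P α) := by
  rw [sub_eq, coeff_map]
  rfl

theorem totalDegree_cp (P : MvPolynomial (Fin (k + 1) × Fin (N + 1)) K) (α : Fin (N + 1) →₀ ℕ) :
    (cp P α).totalDegree ≤ P.totalDegree := by
  unfold totalDegree
  refine Finset.sup_le fun β hβ => ?_
  have h1 : join α β ∈ P.support := by
    rw [mem_support_iff, ← coeff_cp]
    exact mem_support_iff.1 hβ
  refine le_trans ?_ (Finset.le_sup (f := fun s : Fin (k + 1) × Fin (N + 1) →₀ ℕ =>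
    s.sum fun _ e => e) h1)
  change (β.sum fun _ e => e) ≤ (join α β).sum fun _ e => e
  rw [Finsupp.sum_fintype _ _ (by intro; rfl), Finsupp.sum_fintype _ _ (by intro; rfl)]
  simp only [Fintype.sum_prod_type, Fin.sum_univ_succ (n := k), join_zero, join_succ]
  omega

end blocks

section gnfacts

variable {σ : Type}

theorem gn_le (P : MvPolynomial σ ℂ) (s : σ →₀ ℕ) : ‖P.coeff s‖ ≤ gn absC P := by
  by_cases h : s ∈ P.support
  · exact le_ciSup (f := fun s : P.support => absC (P.coeff s)) (Set.finite_range _).bddAbove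
      ⟨s, h⟩
  · rw [notMem_support_iff.1 h, norm_zero]
    exact Real.iSup_nonneg fun s => absC.nonneg _

theorem gn_ex {P : MvPolynomial σ ℂ} (hP : P ≠ 0) : ∃ s ∈ P.support, gn absC P = ‖P.coeff s‖ := by
  have : Nonempty P.support := (support_nonempty.2 hP).to_subtype
  obtain ⟨s, hs⟩ := exists_eq_ciSup_of_finite (f := fun s : P.support => absC (P.coeff s))
  exact ⟨s.1, s.2, hs.symm⟩

theorem gn_mk {P : MvPolynomial σ ℂ} {B : ℝ} (hB : 0 ≤ B) (h : ∀ s, ‖P.coeff s‖ ≤ B) :
    gn absC P ≤ B := Real.iSup_le (fun s => h s.1) hB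

theorem gn_pos {P : MvPolynomial σ ℂ} (hP : P ≠ 0) : 0 < gn absC P := by
  obtain ⟨s, hs, h⟩ := gn_ex hP
  rw [h]
  exact norm_pos_iff.2 (mem_support_iff.1 hs)

theorem gn_rename {τ : Type} (e : σ ≃ τ) (Q : MvPolynomial σ ℂ) :
    gn absC (rename e Q) = gn absC Q := by
  have h0 : ∀ (σ τ : Type) (e : σ ≃ τ) (Q : MvPolynomial σ ℂ),
      gn absC Q ≤ gn absC (rename e Q) := by
    intro σ τ e Q
    refine gn_mk (Real.iSup_nonneg fun s => absC.nonneg _) fun s => ?_
    rw [← coeff_rename_mapDomain e e.injective Q s]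
    exact gn_le _ _
  refine le_antisymm ?_ (h0 _ _ e Q)
  have h1 := h0 _ _ e.symm (rename e Q)
  rwa [rename_rename, Equiv.symm_comp_self, rename_id_apply] at h1

end gnfacts

section main

variable {K : Type} [Field K] {k N : ℕ}

/-- the coefficient polynomial with a maximal coefficient -/
theorem ex_cp (σ : K →+* ℂ) {P : MvPolynomial (Fin (k + 1) × Fin (N + 1)) K} (hP : P ≠ 0) :
    ∃ α, cp P α ≠ 0 ∧ gn absC (map σ (cp P α)) = gn absC (map σ P) := by
  have h0 : map σ P ≠ 0 := by
    intro h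
    apply hP
    apply map_injective σ σ.injective
    rw [h, map_zero]
  obtain ⟨m, hm, h1⟩ := gn_ex h0
  have h2 : m = join (b0 m) (br m) := eq_join.1 ⟨rfl, rfl⟩
  have h3 : coeff (br m) (map σ (cp P (b0 m))) = coeff m (map σ P) := by
    rw [coeff_map, coeff_map, coeff_cp, ← h2]
  refine ⟨b0 m, fun h => ?_, le_antisymm ?_ ?_⟩
  · rw [h, map_zero, coeff_zero] at h3
    exact mem_support_iff.1 hm h3.symm
  · refine gn_mk (Real.iSup_nonneg fun s => absC.nonneg _) fun s => ?_
    rw [coeff_map, coeff_cp, ← coeff_map]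
    exact gn_le _ _
  · rw [h1, ← h3]
    exact gn_le _ _

theorem gn_cp_le (σ : K →+* ℂ) (P : MvPolynomial (Fin (k + 1) × Fin (N + 1)) K)
    (α : Fin (N + 1) →₀ ℕ) : gn absC (map σ (cp P α)) ≤ gn absC (map σ P) := by
  refine gn_mk (Real.iSup_nonneg fun s => absC.nonneg _) fun s => ?_
  rw [coeff_map, coeff_cp, ← coeff_map]
  exact gn_le _ _

/-- extension of `σ` to `K(u)` by `u ↦ w` -/
theorem ext_sigma [Algebra K ℂ] {u : Fin k × Fin (N + 1) → ℂ} (hu : AlgebraicIndependent K u)
    (σ : K →+* ℂ) (w : Fin k × Fin (N + 1) → ℂ)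
    (hw : ∀ Z : MvPolynomial (Fin k × Fin (N + 1)) K, Z ≠ 0 → eval w (map σ Z) ≠ 0) :
    ∃ ι : LK K u →+* ℂ, ∀ Z : MvPolynomial (Fin k × Fin (N + 1)) K,
      ι (aeval (uL K u) Z) = eval w (map σ Z) := by
  set φ : MvPolynomial (Fin k × Fin (N + 1)) K →+* ℂ := (eval w).comp (map σ) with hφ
  have hinj : Function.Injective φ := by
    rw [injective_iff_map_eq_zero]
    intro Z hZ
    by_contra h
    exact hw Z h hZ
  let ι₀ : FractionRing (MvPolynomial (Fin k × Fin (N + 1)) K) →+* ℂ := IsFractionRing.lift hinj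
  let E := hu.aevalEquivField
  refine ⟨ι₀.comp (E.symm : LK K u →ₐ[K] _).toRingHom, fun Z => ?_⟩
  have h1 : E (algebraMap _ _ Z) = aeval (uL K u) Z := by
    apply Subtype.ext
    rw [hu.aevalEquivField_algebraMap_apply_coe]
    have h2 : (LK K u).val.comp (aeval (uL K u)) = aeval u := by
      apply MvPolynomial.algHom_ext
      intro i
      rw [AlgHom.comp_apply, aeval_X, aeval_X]
      rfl
    exact (DFunLike.congr_fun h2 Z).symm
  have h3 : E.symm (aeval (uL K u) Z) = algebraMap _ _ Z := by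
    rw [← h1, AlgEquiv.symm_apply_apply]
  change ι₀ (E.symm (aeval (uL K u) Z)) = φ Z
  rw [h3]
  exact IsFractionRing.lift_algebraMap hinj Z

theorem countable_K [NumberField K] : Countable K := by
  exact (Module.finBasis ℚ K).equivFun.toEquiv.countable_iff.2 inferInstance

theorem countable_poly [NumberField K] : Countable (MvPolynomial (Fin k × Fin (N + 1)) K) := by
  have h1 : Countable K := countable_K
  rw [← Cardinal.mk_le_aleph0_iff]
  refine MvPolynomial.cardinalMk_le_max.trans ?_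
  exact max_le (max_le (Cardinal.mk_le_aleph0_iff.2 h1)
    (Cardinal.mk_le_aleph0_iff.2 inferInstance)) le_rfl

end main

theorem arc (hT : S_TOR) (hE : S_EVB) : S_ARC := by
  intro k N q
  obtain ⟨n, e⟩ : ∃ n : ℕ, Nonempty (Fin k × Fin (N + 1) ≃ Fin n) :=
    ⟨_, ⟨Fintype.equivFin (Fin k × Fin (N + 1))⟩⟩
  obtain ⟨e⟩ := e
  have hl2 : 0 ≤ Real.log 2 := Real.log_nonneg (by norm_num)
  have hn1 : (1 : ℝ) ≤ (n : ℝ) + 1 := by
    have := n.cast_nonneg (α := ℝ)
    linarith
  have hln : 0 ≤ Real.log ((n : ℝ) + 1) := Real.log_nonneg hn1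
  refine ⟨((n : ℝ) + q * n) * Real.log 2 + (q + 1) * Real.log (n + 1), by positivity, ?_⟩
  intro K _ _ _ u hu σ P D hP hD
  choose α hα0 hα1 using fun s => ex_cp σ (hP s)
  have hcm : Countable (MvPolynomial (Fin k × Fin (N + 1)) K) := countable_poly
  have hmap : ∀ Z : MvPolynomial (Fin k × Fin (N + 1)) K, Z ≠ 0 →
      rename e (map σ Z) ≠ 0 := by
    intro Z hZ h
    apply hZ
    apply map_injective σ σ.injective
    apply rename_injective e e.injective
    rw [h, map_zero, map_zero]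
  have hdeg : ∀ (s : Fin q) (β : Fin (N + 1) →₀ ℕ),
      (rename e (map σ (cp (P s) β))).totalDegree ≤ D := by
    intro s β
    refine (totalDegree_rename_le _ _).trans ?_
    refine (Finset.sup_mono (support_map_subset σ _)).trans ?_
    exact (totalDegree_cp (P s) β).trans (hD s)
  obtain ⟨w, hw1, hw2, hw3⟩ := hT n (Fin q) (fun s => rename e (map σ (cp (P s) (α s))))
    (fun s => hmap _ (hα0 s))
    (Set.range fun Z : {Z : MvPolynomial (Fin k × Fin (N + 1)) K // Z ≠ 0} =>
      rename e (map σ Z.1)) (Set.countable_range _) (by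
        rintro _ ⟨Z, rfl⟩
        exact hmap _ Z.2)
  have hev : ∀ Z : MvPolynomial (Fin k × Fin (N + 1)) K,
      eval (w ∘ e) (map σ Z) = eval w (rename e (map σ Z)) := fun Z => by
    rw [eval_rename]
  have hw4 : ∀ Z : MvPolynomial (Fin k × Fin (N + 1)) K, Z ≠ 0 →
      eval w (rename e (map σ Z)) ≠ 0 := fun Z hZ => hw2 _ ⟨⟨Z, hZ⟩, rfl⟩
  obtain ⟨ι, hι⟩ := ext_sigma hu σ (w ∘ e) fun Z hZ => by
    rw [hev]
    exact hw4 Z hZ
  refine ⟨ι, fun x => ?_, fun s => ?_⟩
  · have h1 := hι (C x)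
    rw [aeval_C, map_C, eval_C] at h1
    exact h1
  have hup : ∀ (s : Fin q) (β : Fin (N + 1) →₀ ℕ), ‖eval w (rename e (map σ (cp (P s) β)))‖ ≤
      ((n : ℝ) + 1) ^ D * gn absC (map σ (cp (P s) β)) := by
    intro s β
    have h1 := (hE (Fin n)).1 (rename e (map σ (cp (P s) β))) w fun j => (hw1 j).le
    rw [Fintype.card_fin, gn_rename] at h1
    refine h1.trans ?_
    refine mul_le_mul_of_nonneg_right (pow_le_pow_right₀ hn1 (hdeg s β)) ?_
    exact Real.iSup_nonneg fun s => absC.nonneg _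
  have hco : ∀ β, coeff β (map ι (sub K (uL K u) (P s))) =
      eval w (rename e (map σ (cp (P s) β))) := by
    intro β
    rw [coeff_map, coeff_sub_u, hι, hev]
  set G := gn absC (map σ (P s)) with hG
  set Q := gn absC (map ι (sub K (uL K u) (P s))) with hQ
  have hGpos : 0 < G := by
    refine gn_pos fun h => hP s ?_
    apply map_injective σ σ.injective
    rw [h, map_zero]
  have hE0 : 0 < ‖eval w (rename e (map σ (cp (P s) (α s))))‖ := norm_pos_iff.2 (hw4 _ (hα0 s))
  have hlow : ‖eval w (rename e (map σ (cp (P s) (α s))))‖ ≤ Q := by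
    rw [← hco]
    exact gn_le _ _
  have hQpos : 0 < Q := hE0.trans_le hlow
  have hupQ : Q ≤ ((n : ℝ) + 1) ^ D * G := by
    refine gn_mk (by positivity) fun β => ?_
    rw [hco]
    refine (hup s β).trans ?_
    exact mul_le_mul_of_nonneg_left (gn_cp_le σ (P s) β) (by positivity)
  have hTs : G ≤ 2 ^ (n + q * (n * D)) * ((n : ℝ) + 1) ^ (q * D) * Q := by
    have h1 : ∏ i, gn absC (rename e (map σ (cp (P i) (α i)))) =
        G * ∏ i ∈ Finset.univ.erase s, gn absC (map σ (P i)) := by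
      rw [← Finset.mul_prod_erase Finset.univ _ (Finset.mem_univ s), gn_rename, hα1]
      congr 1
      exact Finset.prod_congr rfl fun i _ => by rw [gn_rename, hα1]
    have h2 : ∏ i, ‖eval w (rename e (map σ (cp (P i) (α i))))‖ ≤
        Q * (((n : ℝ) + 1) ^ (q * D) * ∏ i ∈ Finset.univ.erase s, gn absC (map σ (P i))) := by
      rw [← Finset.mul_prod_erase Finset.univ _ (Finset.mem_univ s)]
      refine mul_le_mul hlow ?_ (Finset.prod_nonneg fun i _ => norm_nonneg _) hQpos.le
      have h3 : ∏ i ∈ Finset.univ.erase s, ‖eval w (rename e (map σ (cp (P i) (α i))))‖ ≤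
          ∏ i ∈ Finset.univ.erase s, (((n : ℝ) + 1) ^ D * gn absC (map σ (P i))) := by
        refine Finset.prod_le_prod (fun i _ => norm_nonneg _) fun i _ => ?_
        rw [← hα1 i]
        exact hup i (α i)
      refine h3.trans ?_
      rw [Finset.prod_mul_distrib, Finset.prod_const, ← pow_mul]
      refine mul_le_mul_of_nonneg_right (pow_le_pow_right₀ hn1 ?_)
        (Finset.prod_nonneg fun i _ => Real.iSup_nonneg fun s => absC.nonneg _)
      rw [mul_comm]
      refine Nat.mul_le_mul_right _ ?_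
      refine (Finset.card_le_univ _).trans ?_
      rw [Fintype.card_fin]
    have h4 : 0 < ∏ i ∈ Finset.univ.erase s, gn absC (map σ (P i)) := by
      refine Finset.prod_pos fun i _ => gn_pos fun h => hP i ?_
      apply map_injective σ σ.injective
      rw [h, map_zero]
    have h5 : (2 : ℝ) ^ (n + ∑ i, ∑ j, (rename e (map σ (cp (P i) (α i)))).degreeOf j) ≤
        2 ^ (n + q * (n * D)) := by
      refine pow_le_pow_right₀ (by norm_num) ?_
      refine Nat.add_le_add_left ?_ _
      calc ∑ i, ∑ j, (rename e (map σ (cp (P i) (α i)))).degreeOf j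
          ≤ ∑ _i : Fin q, ∑ _j : Fin n, D := by
            refine Finset.sum_le_sum fun i _ => Finset.sum_le_sum fun j _ => ?_
            exact (degreeOf_le_totalDegree _ _).trans (hdeg i (α i))
        _ = q * (n * D) := by simp
    rw [h1] at hw3
    have h6 : G * ∏ i ∈ Finset.univ.erase s, gn absC (map σ (P i)) ≤
        (2 ^ (n + q * (n * D)) * ((n : ℝ) + 1) ^ (q * D) * Q) *
          ∏ i ∈ Finset.univ.erase s, gn absC (map σ (P i)) := by
      refine hw3.trans ?_
      refine (mul_le_mul h5 h2 (Finset.prod_nonneg fun i _ => norm_nonneg _)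
        (by positivity)).trans (le_of_eq ?_)
      ring
    exact le_of_mul_le_mul_right h6 h4
  have e1 : Real.log Q - Real.log G ≤ D * Real.log (n + 1) := by
    have h1 := Real.log_le_log hQpos hupQ
    rw [Real.log_mul (by positivity) hGpos.ne', Real.log_pow] at h1
    linarith
  have e2 : Real.log G - Real.log Q ≤
      ((n : ℝ) + q * (n * D)) * Real.log 2 + (q * D) * Real.log (n + 1) := by
    have h1 := Real.log_le_log hGpos hTs
    rw [Real.log_mul (by positivity) hQpos.ne', Real.log_mul (by positivity) (by positivity),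
      Real.log_pow, Real.log_pow] at h1
    push_cast at h1
    linarith
  have hD0 : (0 : ℝ) ≤ D := D.cast_nonneg
  have hq0 : (0 : ℝ) ≤ q := q.cast_nonneg
  have hn0 : (0 : ℝ) ≤ n := n.cast_nonneg
  have e3 : (D : ℝ) * Real.log (n + 1) ≤
      (((n : ℝ) + q * n) * Real.log 2 + (q + 1) * Real.log (n + 1)) * (1 + D) := by
    have h1 : 0 ≤ ((n : ℝ) + q * n) * Real.log 2 * (1 + D) := by positivity
    have h2 : 0 ≤ (q : ℝ) * Real.log (n + 1) * (1 + D) := by positivity
    nlinarith
  have e4 : ((n : ℝ) + q * (n * D)) * Real.log 2 + (q * D) * Real.log (n + 1) ≤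
      (((n : ℝ) + q * n) * Real.log 2 + (q + 1) * Real.log (n + 1)) * (1 + D) := by
    have h1 : 0 ≤ (n : ℝ) * D * Real.log 2 := by positivity
    have h2 : 0 ≤ (q : ℝ) * n * Real.log 2 := by positivity
    have h3 : 0 ≤ (q : ℝ) * Real.log (n + 1) := by positivity
    have h4 : 0 ≤ Real.log ((n : ℝ) + 1) * (1 + D) := by positivity
    nlinarith
  rw [abs_le]
  constructor <;> linarith

end Pool.Agent.Helper75.HD
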